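import Mathlib

/-!
The second largest eigenvalue of a real symmetric matrix with a known top eigenvector.
-/

open Finset Matrix

namespace Pool.Agent.Q209.PsGap

variable {n : Type*} [Fintype n] [DecidableEq n]

/-- second largest entry of the decreasingly sorted list of roots of the characteristic
polynomial -/
noncomputable def lam2 (A : Matrix n n ℝ) : ℝ := (A.charpoly.roots.sort (· ≥ ·)).getD 1 0

theorem lam2_eq {B : Matrix n n ℝ} (hB : B.IsHermitian) (h2 : 1 < Fintype.card n) :
    lam2 B = hB.eigenvalues₀ ⟨1, h2⟩ := by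
  have h := hB.sort_roots_charpoly_eq_eigenvalues₀
  have e : (B.charpoly.roots.map RCLike.re) = B.charpoly.roots := by
    simp
  rw [e] at h
  rw [lam2, h]
  simp [List.getD, h2]

section

variable {B : Matrix n n ℝ} (hB : B.IsHermitian)

/-- the index of the `k`-th largest eigenvalue -/
noncomputable def idx (k : Fin (Fintype.card n)) : n :=
  (Fintype.equivOfCardEq (Fintype.card_fin _)) k

theorem eig_idx (k : Fin (Fintype.card n)) : hB.eigenvalues (idx k) = hB.eigenvalues₀ k := by
  simp [Matrix.IsHermitian.eigenvalues, idx]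

theorem eig_le (h2 : 1 < Fintype.card n) (i : n) (hi : i ≠ idx ⟨0, by omega⟩) :
    hB.eigenvalues i ≤ hB.eigenvalues₀ ⟨1, h2⟩ := by
  obtain ⟨k, rfl⟩ : ∃ k, idx k = i := ⟨(Fintype.equivOfCardEq (Fintype.card_fin _)).symm i, by
    simp [idx]⟩
  rw [eig_idx]
  apply hB.eigenvalues₀_antitone
  have : k ≠ ⟨0, by omega⟩ := fun h => hi (by rw [h])
  rw [Fin.le_def]
  have h3 : k.val ≠ 0 := fun h => this (Fin.ext h)
  show 1 ≤ k.val
  omega

/-- coordinates in the eigenbasis -/
noncomputable def co (w : n → ℝ) (i : n) : ℝ := ∑ j, hB.eigenvectorBasis i j * w j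

theorem co_eq (w : n → ℝ) (i : n) :
    co hB w i = inner ℝ (hB.eigenvectorBasis i) (WithLp.toLp 2 w) := by
  rw [co, PiLp.inner_apply]
  simp only [RCLike.inner_apply, conj_trivial]
  exact Finset.sum_congr rfl fun j _ => mul_comm _ _

theorem co_mulVec (w : n → ℝ) (i : n) :
    co hB (B *ᵥ w) i = hB.eigenvalues i * co hB w i := by
  have h1 := hB.mulVec_eigenvectorBasis i
  have h2 : ∀ j, ∑ k, B k j * hB.eigenvectorBasis i k =
      hB.eigenvalues i * hB.eigenvectorBasis i j := by
    intro j
    have h3 := congrFun h1 j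
    simp only [mulVec, dotProduct, Pi.smul_apply, smul_eq_mul] at h3
    rw [← h3]
    refine Finset.sum_congr rfl fun k _ => ?_
    have : B k j = B j k := by
      have h4 := congrFun (congrFun hB j) k
      simpa [Matrix.conjTranspose_apply] using h4
    rw [this]
  simp only [co, mulVec, dotProduct]
  rw [Finset.mul_sum]
  simp only [Finset.mul_sum]
  rw [Finset.sum_comm]
  refine Finset.sum_congr rfl fun j _ => ?_
  rw [← mul_assoc, ← h2 j, Finset.sum_mul]
  refine Finset.sum_congr rfl fun k _ => ?_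
  ring

theorem dot_eq (v w : n → ℝ) : v ⬝ᵥ w = ∑ i, co hB v i * co hB w i := by
  have h := hB.eigenvectorBasis.sum_inner_mul_inner (WithLp.toLp 2 v) (WithLp.toLp 2 w)
  have h1 : inner ℝ (WithLp.toLp 2 v) (WithLp.toLp 2 w) = v ⬝ᵥ w := by
    rw [PiLp.inner_apply]
    simp only [RCLike.inner_apply, conj_trivial, dotProduct]
    exact Finset.sum_congr rfl fun j _ => mul_comm _ _
  rw [← h1, ← h]
  refine Finset.sum_congr rfl fun i _ => ?_
  rw [co_eq, co_eq, real_inner_comm]

theorem quad_eq (w : n → ℝ) :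
    w ⬝ᵥ (B *ᵥ w) = ∑ i, hB.eigenvalues i * (co hB w i) ^ 2 := by
  rw [dot_eq hB]
  refine Finset.sum_congr rfl fun i _ => ?_
  rw [co_mulVec]
  ring

theorem co_basis (i j : n) :
    co hB (fun k => hB.eigenvectorBasis i k) j = if i = j then 1 else 0 := by
  have h := hB.eigenvectorBasis.orthonormal
  rw [orthonormal_iff_ite] at h
  rw [co_eq]
  have h1 := h j i
  rw [show (WithLp.toLp 2 fun k => hB.eigenvectorBasis i k) = hB.eigenvectorBasis i from rfl, h1]
  simp only [eq_comm]

/-- Upper bound for the second eigenvalue from a bound of the quadratic form on a hyperplane. -/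
theorem lam2_le (hB : B.IsHermitian) (h2 : 1 < Fintype.card n) (u : n → ℝ) (c : ℝ)
    (h : ∀ w, w ⬝ᵥ u = 0 → w ⬝ᵥ (B *ᵥ w) ≤ c * (w ⬝ᵥ w)) : lam2 B ≤ c := by
  rw [lam2_eq hB h2]
  set i0 : n := idx ⟨0, by omega⟩ with hi0
  set i1 : n := idx ⟨1, h2⟩ with hi1
  have hne : i0 ≠ i1 := by
    intro hcon
    have := (Fintype.equivOfCardEq (Fintype.card_fin (Fintype.card n))).injective hcon
    simp [Fin.ext_iff] at this
  have key : ∀ a b : ℝ, a * co hB u i0 + b * co hB u i1 = 0 → (a ≠ 0 ∨ b ≠ 0) →
      hB.eigenvalues₀ ⟨1, h2⟩ ≤ c := by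
    intro a b hab hn
    set w : n → ℝ := fun k => a * hB.eigenvectorBasis i0 k + b * hB.eigenvectorBasis i1 k with hw
    have hco : ∀ j, co hB w j = a * (if i0 = j then 1 else 0) + b * (if i1 = j then 1 else 0) := by
      intro j
      rw [← co_basis hB i0 j, ← co_basis hB i1 j]
      simp only [co, hw, mul_add, Finset.sum_add_distrib, Finset.mul_sum]
      congr 1 <;> exact Finset.sum_congr rfl fun k _ => by ring
    have hwu : w ⬝ᵥ u = 0 := by
      rw [dot_eq hB]
      simp only [hco, add_mul, Finset.sum_add_distrib, mul_ite, mul_one, mul_zero, ite_mul,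
        zero_mul, Finset.sum_ite_eq, Finset.mem_univ, if_true]
      exact hab
    have h3 := h w hwu
    rw [quad_eq hB, dot_eq hB] at h3
    have hsq : ∀ j, co hB w j ^ 2 = a ^ 2 * (if i0 = j then 1 else 0) +
        b ^ 2 * (if i1 = j then 1 else 0) := by
      intro j
      rw [hco]
      by_cases h4 : i0 = j
      · have h5 : i1 ≠ j := by rw [← h4]; exact hne.symm
        simp [h4, h5]
      · by_cases h5 : i1 = j
        · simp [h4, h5]
        · simp [h4, h5]
    have e1 : ∑ i, hB.eigenvalues i * co hB w i ^ 2 =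
        a ^ 2 * hB.eigenvalues i0 + b ^ 2 * hB.eigenvalues i1 := by
      simp only [hsq, mul_add, Finset.sum_add_distrib, mul_ite, mul_one, mul_zero,
        Finset.sum_ite_eq, Finset.mem_univ, if_true]
      ring
    have e2 : ∑ i, co hB w i * co hB w i = a ^ 2 + b ^ 2 := by
      have : ∀ i, co hB w i * co hB w i = co hB w i ^ 2 := fun i => by ring
      simp only [this, hsq, Finset.sum_add_distrib, mul_ite, mul_one, mul_zero,
        Finset.sum_ite_eq, Finset.mem_univ, if_true]
    rw [e1, e2, hi0, hi1, eig_idx, eig_idx] at h3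
    have h4 : hB.eigenvalues₀ ⟨1, h2⟩ ≤ hB.eigenvalues₀ ⟨0, by omega⟩ :=
      hB.eigenvalues₀_antitone (by rw [Fin.le_def]; show 0 ≤ 1; norm_num)
    have h5 : 0 < a ^ 2 + b ^ 2 := by
      rcases hn with h6 | h6
      · have := pow_pos (abs_pos.mpr h6) 2
        rw [sq_abs] at this
        positivity
      · have := pow_pos (abs_pos.mpr h6) 2
        rw [sq_abs] at this
        positivity
    have h6 : hB.eigenvalues₀ ⟨1, h2⟩ * (a ^ 2 + b ^ 2) ≤ c * (a ^ 2 + b ^ 2) := by
      nlinarith [sq_nonneg a, sq_nonneg b]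
    exact le_of_mul_le_mul_right h6 h5
  by_cases h3 : co hB u i1 = 0
  · exact key 0 1 (by rw [h3]; ring) (Or.inr one_ne_zero)
  · exact key (co hB u i1) (-co hB u i0) (by ring) (Or.inl h3)

/-- Bound of the quadratic form orthogonally to the top eigenvector. -/
theorem quad_le (hB : B.IsHermitian) (h2 : 1 < Fintype.card n) (u : n → ℝ) (hu0 : u ≠ 0)
    (hu : B *ᵥ u = u) (h1 : ∀ w, w ⬝ᵥ (B *ᵥ w) ≤ w ⬝ᵥ w) (w : n → ℝ) (hw : w ⬝ᵥ u = 0) :
    w ⬝ᵥ (B *ᵥ w) ≤ lam2 B * (w ⬝ᵥ w) := by
  rw [lam2_eq hB h2, quad_eq hB, dot_eq hB, Finset.mul_sum]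
  set i0 : n := idx ⟨0, by omega⟩ with hi0
  set L := hB.eigenvalues₀ ⟨1, h2⟩ with hL
  refine Finset.sum_le_sum fun i _ => ?_
  by_cases hi : i = i0
  · rcases le_or_gt (hB.eigenvalues i0) L with h3 | h3
    · rw [hi]
      have := sq_nonneg (co hB w i0)
      nlinarith
    · -- then `u` is proportional to the top eigenvector
      have h4 : hB.eigenvalues i0 ≤ 1 := by
        have h5 := h1 (fun k => hB.eigenvectorBasis i0 k)
        rw [quad_eq hB, dot_eq hB] at h5
        simp only [co_basis] at h5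
        simpa using h5
      have h6 : ∀ j, j ≠ i0 → co hB u j = 0 := by
        intro j hj
        have h7 := eig_le hB h2 j hj
        have h8 := co_mulVec hB u j
        rw [hu] at h8
        have h9 : hB.eigenvalues j < 1 := by linarith
        have h10 : (1 - hB.eigenvalues j) * co hB u j = 0 := by linarith
        rcases mul_eq_zero.mp h10 with h11 | h11
        · linarith
        · exact h11
      have h7 : co hB u i0 ≠ 0 := by
        intro hcon
        apply hu0
        have h8 : u ⬝ᵥ u = 0 := by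
          rw [dot_eq hB]
          apply Finset.sum_eq_zero
          intro j _
          by_cases hj : j = i0
          · rw [hj, hcon]; ring
          · rw [h6 j hj]; ring
        exact dotProduct_self_eq_zero.mp h8
      have h8 : co hB w i0 = 0 := by
        rw [dot_eq hB, Finset.sum_eq_single i0] at hw
        · rcases mul_eq_zero.mp hw with h9 | h9
          · exact h9
          · exact absurd h9 h7
        · intro j _ hj
          rw [h6 j hj, mul_zero]
        · intro h9; exact absurd (Finset.mem_univ _) h9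
      rw [hi, h8]
      simp
  · have h3 := eig_le hB h2 i hi
    have := sq_nonneg (co hB w i)
    nlinarith

/-- The second eigenvalue is nonnegative if the quadratic form is. -/
theorem lam2_nonneg (hB : B.IsHermitian) (h2 : 1 < Fintype.card n)
    (h : ∀ w, 0 ≤ w ⬝ᵥ (B *ᵥ w)) : 0 ≤ lam2 B := by
  rw [lam2_eq hB h2]
  have h5 := h (fun k => hB.eigenvectorBasis (idx ⟨1, h2⟩) k)
  rw [quad_eq hB] at h5
  simp only [co_basis] at h5
  rw [← eig_idx]
  simpa using h5

end

end Pool.Agent.Q209.PsGap
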