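import Mathlib
import Pool.Agent.Q209.PsGap.Second

/-!
Multiplicative reversiblization in weighted `L²` and the lazy version of a chain.
-/

open Finset Matrix

namespace Pool.Agent.Q209.PsGap

variable {n : Type*} [Fintype n] [DecidableEq n]

/-- time reversal -/
noncomputable def timeRev (p : n → ℝ) (M : Matrix n n ℝ) : Matrix n n ℝ :=
  fun i j => p j * M j i / p i

/-- squared norm in `L²(p)` -/
def nsq (p : n → ℝ) (f : n → ℝ) : ℝ := ∑ i, p i * f i ^ 2

/-- the symmetrised matrix -/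
noncomputable def sym (p : n → ℝ) (K : Matrix n n ℝ) : Matrix n n ℝ :=
  fun i j => ∑ l, p l * K l i * K l j / (√(p i) * √(p j))

omit [DecidableEq n] in
theorem sym_herm (p : n → ℝ) (K : Matrix n n ℝ) : (sym p K).IsHermitian := by
  ext i j
  simp only [sym, Matrix.conjTranspose_apply, star_trivial]
  refine Finset.sum_congr rfl fun l _ => ?_
  ring

theorem sym_eq {p : n → ℝ} (hp : ∀ i, 0 < p i) (K : Matrix n n ℝ) :
    sym p K = Matrix.diagonal (fun i => √(p i)) * (timeRev p K * K) *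
      Matrix.diagonal (fun i => (√(p i))⁻¹) := by
  ext i j
  rw [Matrix.mul_diagonal, Matrix.diagonal_mul, Matrix.mul_apply, Finset.mul_sum, Finset.sum_mul]
  simp only [sym, timeRev]
  refine Finset.sum_congr rfl fun l _ => ?_
  have h1 : √(p i) ≠ 0 := (Real.sqrt_pos.mpr (hp i)).ne'
  have h2 : √(p j) ≠ 0 := (Real.sqrt_pos.mpr (hp j)).ne'
  have h3 : √(p i) ^ 2 = p i := Real.sq_sqrt (hp i).le
  have h4 : p i ≠ 0 := (hp i).ne'
  field_simp
  rw [h3]

theorem lam2_sym {p : n → ℝ} (hp : ∀ i, 0 < p i) (K : Matrix n n ℝ) :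
    lam2 (timeRev p K * K) = lam2 (sym p K) := by
  have hinv : Matrix.diagonal (fun i => √(p i)) * Matrix.diagonal (fun i => (√(p i))⁻¹) = 1 := by
    rw [Matrix.diagonal_mul_diagonal, ← Matrix.diagonal_one]
    congr 1
    ext i
    exact mul_inv_cancel₀ (Real.sqrt_pos.mpr (hp i)).ne'
  have hinv' : Matrix.diagonal (fun i => (√(p i))⁻¹) * Matrix.diagonal (fun i => √(p i)) = 1 := by
    rw [Matrix.diagonal_mul_diagonal, ← Matrix.diagonal_one]
    congr 1
    ext i
    exact inv_mul_cancel₀ (Real.sqrt_pos.mpr (hp i)).ne'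
  let u : (Matrix n n ℝ)ˣ := ⟨_, _, hinv, hinv'⟩
  have h := Matrix.charpoly_units_conj u (timeRev p K * K)
  rw [← Matrix.coe_units_inv] at h
  rw [lam2, lam2, sym_eq hp, ← h]
  rfl

omit [DecidableEq n] in
theorem quad_sym {p : n → ℝ} (hp : ∀ i, 0 < p i) (K : Matrix n n ℝ) (w : n → ℝ) :
    w ⬝ᵥ (sym p K *ᵥ w) = nsq p (K *ᵥ fun i => w i / √(p i)) := by
  simp only [dotProduct, mulVec, sym, nsq, sq, Finset.mul_sum, Finset.sum_mul]
  rw [Finset.sum_congr rfl fun i _ => Finset.sum_comm, Finset.sum_comm]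
  refine Finset.sum_congr rfl fun l _ => ?_
  rw [Finset.sum_comm]
  refine Finset.sum_congr rfl fun i _ => Finset.sum_congr rfl fun j _ => ?_
  have h1 : √(p i) ≠ 0 := (Real.sqrt_pos.mpr (hp i)).ne'
  have h2 : √(p j) ≠ 0 := (Real.sqrt_pos.mpr (hp j)).ne'
  field_simp

omit [DecidableEq n] in
theorem nsq_div {p : n → ℝ} (hp : ∀ i, 0 < p i) (w : n → ℝ) :
    nsq p (fun i => w i / √(p i)) = w ⬝ᵥ w := by
  simp only [nsq, dotProduct]
  refine Finset.sum_congr rfl fun i _ => ?_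
  have h1 : √(p i) ≠ 0 := (Real.sqrt_pos.mpr (hp i)).ne'
  have h3 : √(p i) ^ 2 = p i := Real.sq_sqrt (hp i).le
  rw [div_pow, h3]
  have h4 : p i ≠ 0 := (hp i).ne'
  field_simp

omit [DecidableEq n] in
theorem mean_div {p : n → ℝ} (hp : ∀ i, 0 < p i) (w : n → ℝ) :
    ∑ i, p i * (w i / √(p i)) = w ⬝ᵥ (fun i => √(p i)) := by
  simp only [dotProduct]
  refine Finset.sum_congr rfl fun i _ => ?_
  have h1 : √(p i) ≠ 0 := (Real.sqrt_pos.mpr (hp i)).ne'
  have h3 : √(p i) ^ 2 = p i := Real.sq_sqrt (hp i).le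
  field_simp
  rw [h3]
  ring

omit [DecidableEq n] in
theorem nsq_nonneg {p : n → ℝ} (hp : ∀ i, 0 < p i) (f : n → ℝ) : 0 ≤ nsq p f :=
  Finset.sum_nonneg fun i _ => mul_nonneg (hp i).le (sq_nonneg _)

/-- If `K` contracts mean zero functions by the factor `c` then the second eigenvalue of the
multiplicative reversiblization is at most `c`. -/
theorem lam2_le_of {p : n → ℝ} (hp : ∀ i, 0 < p i) (h2 : 1 < Fintype.card n) (K : Matrix n n ℝ)
    (c : ℝ) (h : ∀ f, ∑ i, p i * f i = 0 → nsq p (K *ᵥ f) ≤ c * nsq p f) :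
    lam2 (timeRev p K * K) ≤ c := by
  rw [lam2_sym hp]
  refine lam2_le (sym_herm p K) h2 (fun i => √(p i)) c fun w hw => ?_
  rw [quad_sym hp, ← nsq_div hp]
  exact h _ (by rw [mean_div hp]; exact hw)

theorem lam2_nonneg' {p : n → ℝ} (hp : ∀ i, 0 < p i) (h2 : 1 < Fintype.card n)
    (K : Matrix n n ℝ) : 0 ≤ lam2 (timeRev p K * K) := by
  rw [lam2_sym hp]
  refine lam2_nonneg (sym_herm p K) h2 fun w => ?_
  rw [quad_sym hp]
  exact nsq_nonneg hp _

omit [DecidableEq n] in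
/-- Jensen for a stochastic matrix with stationary vector `p`. -/
theorem nsq_mul_le {p : n → ℝ} (hp : ∀ i, 0 < p i) {K : Matrix n n ℝ} (h0 : ∀ i j, 0 ≤ K i j)
    (h1 : ∀ i, ∑ j, K i j = 1) (hs : ∀ j, ∑ i, p i * K i j = p j) (f : n → ℝ) :
    nsq p (K *ᵥ f) ≤ nsq p f := by
  have hrow : ∀ i, (K *ᵥ f) i ^ 2 ≤ ∑ j, K i j * f j ^ 2 := by
    intro i
    have h := Finset.sum_mul_sq_le_sq_mul_sq univ (fun j => √(K i j)) (fun j => √(K i j) * f j)
    have e1 : ∀ j, √(K i j) * (√(K i j) * f j) = K i j * f j := by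
      intro j; rw [← mul_assoc, Real.mul_self_sqrt (h0 i j)]
    have e2 : ∀ j, √(K i j) ^ 2 = K i j := fun j => Real.sq_sqrt (h0 i j)
    have e3 : ∀ j, (√(K i j) * f j) ^ 2 = K i j * f j ^ 2 := by
      intro j; rw [mul_pow, e2]
    simp only [e1, e2, e3, h1, one_mul] at h
    exact h
  calc nsq p (K *ᵥ f) ≤ ∑ i, p i * ∑ j, K i j * f j ^ 2 :=
        Finset.sum_le_sum fun i _ => mul_le_mul_of_nonneg_left (hrow i) (hp i).le
    _ = ∑ j, (∑ i, p i * K i j) * f j ^ 2 := by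
        simp only [Finset.mul_sum, Finset.sum_mul]
        rw [Finset.sum_comm]
        exact Finset.sum_congr rfl fun j _ => Finset.sum_congr rfl fun i _ => by ring
    _ = nsq p f := by simp only [hs]; rfl

/-- Contraction of mean zero functions. -/
theorem nsq_mul_le_lam2 {p : n → ℝ} (hp : ∀ i, 0 < p i) (h2 : 1 < Fintype.card n)
    {K : Matrix n n ℝ} (h0 : ∀ i j, 0 ≤ K i j)
    (h1 : ∀ i, ∑ j, K i j = 1) (hs : ∀ j, ∑ i, p i * K i j = p j) (f : n → ℝ)
    (hf : ∑ i, p i * f i = 0) :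
    nsq p (K *ᵥ f) ≤ lam2 (timeRev p K * K) * nsq p f := by
  rw [lam2_sym hp]
  set w : n → ℝ := fun i => √(p i) * f i with hw
  have hfw : (fun i => w i / √(p i)) = f := by
    ext i
    have h1 : √(p i) ≠ 0 := (Real.sqrt_pos.mpr (hp i)).ne'
    simp only [hw]
    field_simp
  have hu0 : (fun i => √(p i)) ≠ 0 := by
    intro hcon
    obtain ⟨i⟩ : Nonempty n := Fintype.card_pos_iff.mp (by omega)
    exact (Real.sqrt_pos.mpr (hp i)).ne' (congrFun hcon i)
  have hsq : ∀ i, √(p i) * √(p i) = p i := fun i => Real.mul_self_sqrt (hp i).le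
  have hu : sym p K *ᵥ (fun i => √(p i)) = fun i => √(p i) := by
    ext i
    have hi : √(p i) ≠ 0 := (Real.sqrt_pos.mpr (hp i)).ne'
    simp only [mulVec, dotProduct, sym, Finset.sum_mul]
    rw [Finset.sum_comm]
    have e1 : ∀ l, ∑ j, p l * K l i * K l j / (√(p i) * √(p j)) * √(p j) =
        p l * K l i / √(p i) := by
      intro l
      have e2 : ∀ j, p l * K l i * K l j / (√(p i) * √(p j)) * √(p j) =
          p l * K l i / √(p i) * K l j := by
        intro j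
        have hj : √(p j) ≠ 0 := (Real.sqrt_pos.mpr (hp j)).ne'
        field_simp
      simp only [e2]
      rw [← Finset.mul_sum, h1, mul_one]
    simp only [e1]
    rw [← Finset.sum_div, hs, div_eq_iff hi, hsq]
  have hle : ∀ v, v ⬝ᵥ (sym p K *ᵥ v) ≤ v ⬝ᵥ v := by
    intro v
    rw [quad_sym hp, ← nsq_div hp]
    exact nsq_mul_le hp h0 h1 hs _
  have hwu : w ⬝ᵥ (fun i => √(p i)) = 0 := by
    rw [← mean_div hp, ← hf]
    exact Finset.sum_congr rfl fun i _ => by rw [← congrFun hfw i]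
  have h3 := quad_le (sym_herm p K) h2 _ hu0 hu hle w hwu
  rw [quad_sym hp, ← nsq_div hp, hfw] at h3
  exact h3

end Pool.Agent.Q209.PsGap
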