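import Mathlib
import Pool.Agent.Q209.PsGap.Core

/-!
The lazy version: contraction of mean zero functions, and positivity of the pseudo spectral gap.
-/

open Finset Matrix

namespace Pool.Agent.Q209.PsGap

variable {n : Type*} [Fintype n] [DecidableEq n]

/-- the weighted embedding -/
noncomputable def emb (p : n → ℝ) (f : n → ℝ) : EuclideanSpace ℝ n :=
  WithLp.toLp 2 (fun i => √(p i) * f i)

omit [DecidableEq n] in
theorem emb_sq {p : n → ℝ} (hp : ∀ i, 0 < p i) (f : n → ℝ) : ‖emb p f‖ ^ 2 = nsq p f := by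
  rw [EuclideanSpace.norm_sq_eq]
  simp only [emb, nsq, Real.norm_eq_abs, sq_abs, mul_pow]
  exact Finset.sum_congr rfl fun i _ => by rw [Real.sq_sqrt (hp i).le]

omit [DecidableEq n] in
theorem emb_add (p : n → ℝ) (f g : n → ℝ) : emb p (f + g) = emb p f + emb p g := by
  ext i
  simp [emb, mul_add]

omit [DecidableEq n] in
theorem emb_sub (p : n → ℝ) (f g : n → ℝ) : emb p (f - g) = emb p f - emb p g := by
  ext i
  simp [emb, mul_sub]

variable {p : n → ℝ} {M : Matrix n n ℝ}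

theorem stoch_pow (h0 : ∀ i j, 0 ≤ M i j) (h1 : ∀ i, ∑ j, M i j = 1)
    (hs : ∀ j, ∑ i, p i * M i j = p j) (k : ℕ) :
    (∀ i j, 0 ≤ (M ^ k) i j) ∧ (∀ i, ∑ j, (M ^ k) i j = 1) ∧
      ∀ j, ∑ i, p i * (M ^ k) i j = p j := by
  induction k with
  | zero =>
    refine ⟨fun i j => ?_, fun i => ?_, fun j => ?_⟩
    · rw [pow_zero, Matrix.one_apply]; split_ifs <;> norm_num
    · simp [Matrix.one_apply]
    · simp [Matrix.one_apply]
  | succ k ih =>
    obtain ⟨a, b, c⟩ := ih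
    refine ⟨fun i j => ?_, fun i => ?_, fun j => ?_⟩
    · rw [pow_succ, Matrix.mul_apply]
      exact Finset.sum_nonneg fun l _ => mul_nonneg (a i l) (h0 l j)
    · simp only [pow_succ, Matrix.mul_apply]
      rw [Finset.sum_comm]
      simp only [← Finset.mul_sum, h1, mul_one, b]
    · simp only [pow_succ, Matrix.mul_apply, Finset.mul_sum]
      rw [Finset.sum_comm]
      simp only [← mul_assoc, ← Finset.sum_mul, c, hs]

theorem norm_sub_pow (hp : ∀ i, 0 < p i) (h0 : ∀ i j, 0 ≤ M i j) (h1 : ∀ i, ∑ j, M i j = 1)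
    (hs : ∀ j, ∑ i, p i * M i j = p j) (f : n → ℝ) (k : ℕ) :
    ‖emb p (f - (M ^ k) *ᵥ f)‖ ≤ k * ‖emb p (f - M *ᵥ f)‖ := by
  induction k with
  | zero =>
    simp [emb]
    rfl
  | succ k ih =>
    have e : f - (M ^ (k + 1)) *ᵥ f = (f - M *ᵥ f) + M *ᵥ (f - (M ^ k) *ᵥ f) := by
      rw [Matrix.mulVec_sub, pow_succ', ← Matrix.mulVec_mulVec]
      abel
    have h3 : ‖emb p (M *ᵥ (f - (M ^ k) *ᵥ f))‖ ≤ ‖emb p (f - (M ^ k) *ᵥ f)‖ := by
      apply le_of_sq_le_sq _ (norm_nonneg _)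
      rw [emb_sq hp, emb_sq hp]
      exact nsq_mul_le hp h0 h1 hs _
    rw [e, emb_add]
    calc _ ≤ ‖emb p (f - M *ᵥ f)‖ + ‖emb p (M *ᵥ (f - (M ^ k) *ᵥ f))‖ := norm_add_le _ _
      _ ≤ ‖emb p (f - M *ᵥ f)‖ + k * ‖emb p (f - M *ᵥ f)‖ := by linarith
      _ = ((k + 1 : ℕ) : ℝ) * ‖emb p (f - M *ᵥ f)‖ := by push_cast; ring

theorem lazy_nsq (a : ℝ) (f : n → ℝ) :
    nsq p ((a • (1 : Matrix n n ℝ) + (1 - a) • M) *ᵥ f) =
      a * nsq p f + (1 - a) * nsq p (M *ᵥ f) - a * (1 - a) * nsq p (f - M *ᵥ f) := by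
  rw [Matrix.add_mulVec, Matrix.smul_mulVec, Matrix.smul_mulVec, Matrix.one_mulVec]
  simp only [nsq, Pi.add_apply, Pi.smul_apply, Pi.sub_apply, smul_eq_mul, Finset.mul_sum]
  rw [← Finset.sum_add_distrib, ← Finset.sum_sub_distrib]
  exact Finset.sum_congr rfl fun i _ => by ring

/-- Main estimate. -/
theorem lazy_gap (hp : ∀ i, 0 < p i) (h2 : 1 < Fintype.card n) (h0 : ∀ i j, 0 ≤ M i j)
    (h1 : ∀ i, ∑ j, M i j = 1) (hs : ∀ j, ∑ i, p i * M i j = p j) (a : ℝ) (ha0 : 0 ≤ a)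
    (ha1 : a ≤ 1) (k : ℕ) (hkpos : 0 < k) (g : ℝ) (hg : 0 ≤ g)
    (hk : 1 - lam2 (timeRev p (M ^ k) * M ^ k) = k * g) :
    a * (1 - a) * g ^ 2 / 4 ≤
      1 - lam2 (timeRev p (a • (1 : Matrix n n ℝ) + (1 - a) • M) *
        (a • (1 : Matrix n n ℝ) + (1 - a) • M)) := by
  obtain ⟨k0, k1, k2⟩ := stoch_pow h0 h1 hs k
  suffices h : lam2 (timeRev p (a • (1 : Matrix n n ℝ) + (1 - a) • M) *
        (a • (1 : Matrix n n ℝ) + (1 - a) • M)) ≤ 1 - a * (1 - a) * g ^ 2 / 4 by linarith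
  refine lam2_le_of hp h2 _ _ fun f hf => ?_
  rw [lazy_nsq]
  have hkR : (0 : ℝ) < k := by exact_mod_cast hkpos
  have h3 := nsq_mul_le_lam2 hp h2 k0 k1 k2 f hf
  have hlam : lam2 (timeRev p (M ^ k) * M ^ k) = 1 - k * g := by linarith
  have hlam0 := lam2_nonneg' hp h2 (M ^ k)
  rw [hlam] at h3 hlam0
  set F := ‖emb p f‖ with hF
  have hF0 : 0 ≤ F := norm_nonneg _
  have hFsq : F ^ 2 = nsq p f := emb_sq hp f
  have h4 : ‖emb p ((M ^ k) *ᵥ f)‖ ≤ (1 - k * g / 2) * F := by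
    apply le_of_sq_le_sq _ (mul_nonneg (by linarith) hF0)
    rw [emb_sq hp, mul_pow, hFsq]
    refine h3.trans ?_
    apply mul_le_mul_of_nonneg_right _ (nsq_nonneg hp f)
    nlinarith [sq_nonneg (k * g)]
  have h5 := norm_sub_pow hp h0 h1 hs f k
  rw [emb_sub] at h5
  have h6 := norm_sub_norm_le (emb p f) (emb p ((M ^ k) *ᵥ f))
  set D := ‖emb p (f - M *ᵥ f)‖ with hD
  have h7 : k * g / 2 * F ≤ k * D := by
    have : F - ‖emb p ((M ^ k) *ᵥ f)‖ ≤ k * D := h6.trans h5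
    linarith
  have h8 : g / 2 * F ≤ D := by
    have : k * (g / 2 * F) ≤ k * D := by linarith
    exact le_of_mul_le_mul_left this hkR
  have h9 : (g / 2 * F) ^ 2 ≤ D ^ 2 := pow_le_pow_left₀ (by positivity) h8 2
  rw [hD, emb_sq hp, mul_pow, hFsq] at h9
  have h10 := nsq_mul_le hp h0 h1 hs f
  have h11 : 0 ≤ a * (1 - a) := mul_nonneg ha0 (by linarith)
  nlinarith [mul_le_mul_of_nonneg_left h10 (show 0 ≤ 1 - a by linarith),
    mul_le_mul_of_nonneg_left h9 h11]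

/-- A positive power has a positive gap (Doeblin). -/
theorem gap_pos (hp : ∀ i, 0 < p i) (hp1 : ∑ i, p i = 1) (h2 : 1 < Fintype.card n)
    {K : Matrix n n ℝ} (h0 : ∀ i j, 0 < K i j)
    (h1 : ∀ i, ∑ j, K i j = 1) (hs : ∀ j, ∑ i, p i * K i j = p j) :
    lam2 (timeRev p K * K) < 1 := by
  obtain ⟨i0⟩ : Nonempty n := Fintype.card_pos_iff.mp (by omega)
  obtain ⟨⟨a, b⟩, _, hab⟩ := Finset.exists_min_image (univ : Finset (n × n))
    (fun x => K x.1 x.2) ⟨(i0, i0), Finset.mem_univ _⟩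
  set δ := K a b with hδ
  have hmin : ∀ i j, δ ≤ K i j := fun i j => hab (i, j) (Finset.mem_univ _)
  have hδ0 : 0 < δ := h0 a b
  have hple : ∀ j, p j ≤ 1 := fun j => by
    rw [← hp1]; exact Finset.single_le_sum (fun i _ => (hp i).le) (Finset.mem_univ j)
  have hge : ∀ i j, 0 ≤ K i j - δ * p j := by
    intro i j
    have := mul_le_mul_of_nonneg_left (hple j) hδ0.le
    linarith [hmin i j]
  have hsum : ∀ i, ∑ j, (K i j - δ * p j) = 1 - δ := by
    intro i
    rw [Finset.sum_sub_distrib, h1, ← Finset.mul_sum, hp1, mul_one]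
  have hδ1 : δ ≤ 1 := by
    have := Finset.sum_nonneg fun j (_ : j ∈ univ) => hge i0 j
    rw [hsum] at this
    linarith
  have hkey : lam2 (timeRev p K * K) ≤ (1 - δ) ^ 2 := by
    refine lam2_le_of hp h2 _ _ fun f hf => ?_
    have hrow : ∀ i, (K *ᵥ f) i ^ 2 ≤ (1 - δ) * ∑ j, (K i j - δ * p j) * f j ^ 2 := by
      intro i
      have h := Finset.sum_mul_sq_le_sq_mul_sq univ (fun j => √(K i j - δ * p j))
        (fun j => √(K i j - δ * p j) * f j)
      have e1 : ∀ j, √(K i j - δ * p j) * (√(K i j - δ * p j) * f j) =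
          (K i j - δ * p j) * f j := by
        intro j; rw [← mul_assoc, Real.mul_self_sqrt (hge i j)]
      have e2 : ∀ j, √(K i j - δ * p j) ^ 2 = K i j - δ * p j := fun j => Real.sq_sqrt (hge i j)
      have e3 : ∀ j, (√(K i j - δ * p j) * f j) ^ 2 = (K i j - δ * p j) * f j ^ 2 := by
        intro j; rw [mul_pow, e2]
      simp only [e1, e2, e3, hsum] at h
      have e4 : ∑ j, (K i j - δ * p j) * f j = (K *ᵥ f) i := by
        simp only [sub_mul, Finset.sum_sub_distrib, mul_assoc, ← Finset.mul_sum, hf, mul_zero,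
          sub_zero]
        rfl
      rw [e4] at h
      exact h
    calc nsq p (K *ᵥ f) ≤ ∑ i, p i * ((1 - δ) * ∑ j, (K i j - δ * p j) * f j ^ 2) :=
          Finset.sum_le_sum fun i _ => mul_le_mul_of_nonneg_left (hrow i) (hp i).le
      _ = (1 - δ) * ∑ j, (∑ i, p i * (K i j - δ * p j)) * f j ^ 2 := by
          simp only [Finset.mul_sum, Finset.sum_mul]
          rw [Finset.sum_comm]
          exact Finset.sum_congr rfl fun j _ => Finset.sum_congr rfl fun i _ => by ring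
      _ = (1 - δ) * ∑ j, ((1 - δ) * p j) * f j ^ 2 := by
          congr 1
          refine Finset.sum_congr rfl fun j _ => ?_
          congr 1
          simp only [mul_sub, Finset.sum_sub_distrib, hs]
          rw [← Finset.sum_mul, hp1]
          ring
      _ = (1 - δ) ^ 2 * nsq p f := by
          simp only [nsq, Finset.mul_sum]
          exact Finset.sum_congr rfl fun j _ => by ring
  have : (1 - δ) ^ 2 < 1 := by nlinarith
  linarith

end Pool.Agent.Q209.PsGap
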